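import Mathlib

/-!
A combinatorial certificate for a simplicial complex to be a triangulation of a real
projective space: the complex is the antipodal quotient of the boundary complex of a
centrally symmetric simplicial convex polytope.
-/

open Finset

namespace Pool.Agent.Lib.MP_b4345b_gt

variable {V J E : Type*} [Fintype V] [DecidableEq V] [Finite J] [Nonempty J]
  [NormedAddCommGroup E] [NormedSpace ℝ E] [FiniteDimensional ℝ E]

/-- Certificate data for a centrally symmetric simplicial polytope with vertices `± p v`.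
`J` indexes the (signed) facets, `σ j v` is the sign with which `v` occurs in the facet `j`
and `u j` is the supporting functional of the facet `j`. -/
structure Cert (V J E : Type*) [Fintype V] [NormedAddCommGroup E] [NormedSpace ℝ E] where
  p : V → E
  σ : J → V → ℝ
  u : J → E →ₗ[ℝ] ℝ
  h01 : ∀ j v, σ j v ≠ 0 → σ j v = 1 ∨ σ j v = -1
  H1 : ∀ j v, σ j v ≠ 0 → u j (p v) = σ j v
  H2 : ∀ j v, σ j v = 0 → |u j (p v)| < 1
  neg : ∀ j, ∃ k, ∀ v, σ k v = - σ j v
  H3 : ∀ j v, σ j v ≠ 0 → ∃ k, (∀ w, w ≠ v → σ j w ≠ 0 → σ k w = σ j w) ∧ σ k v ≠ σ j v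
  H4 : ∀ j, Fintype.card {v // σ j v ≠ 0} = Module.finrank ℝ E
  H5 : ∀ i j v w, σ i v ≠ 0 → σ i w ≠ 0 → σ j v ≠ 0 → σ j w ≠ 0 →
    σ i v * σ i w = σ j v * σ j w

namespace Cert

variable (C : Cert V J E)

/-- linear combination of the vertices -/
noncomputable def Y (z : V → ℝ) : E := ∑ v, z v • C.p v

omit [DecidableEq V] [Finite J] [Nonempty J] [FiniteDimensional ℝ E] in
lemma u_Y (j : J) (z : V → ℝ) : C.u j (C.Y z) = ∑ v, z v * C.u j (C.p v) := by
  simp [Y, map_sum]

/-- `z` is a (signed) point on the cone over the facet `j` -/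
def Comp (j : J) (z : V → ℝ) : Prop := ∀ v, 0 ≤ C.σ j v * z v ∧ (C.σ j v = 0 → z v = 0)

omit [DecidableEq V] [Finite J] [Nonempty J] [FiniteDimensional ℝ E] in
lemma Comp.mul_eq {C : Cert V J E} {j : J} {z : V → ℝ} (h : C.Comp j z) (v : V) :
    z v * C.u j (C.p v) = |z v| := by
  by_cases h0 : C.σ j v = 0
  · simp [(h v).2 h0]
  · rw [C.H1 j v h0]
    have := (h v).1
    rcases C.h01 j v h0 with h1 | h1
    · rw [h1] at this ⊢
      rw [abs_of_nonneg (by linarith)]; ring
    · rw [h1] at this ⊢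
      rw [abs_of_nonpos (by linarith)]; ring

omit [DecidableEq V] [Finite J] [Nonempty J] [FiniteDimensional ℝ E] in
lemma Comp.u_Y_eq {C : Cert V J E} {j : J} {z : V → ℝ} (h : C.Comp j z) :
    C.u j (C.Y z) = ∑ v, |z v| := by
  rw [C.u_Y]; exact Finset.sum_congr rfl fun v _ => h.mul_eq v

omit [DecidableEq V] [Finite J] [Nonempty J] [FiniteDimensional ℝ E] in
lemma abs_u_le (j : J) (v : V) : |C.u j (C.p v)| ≤ 1 := by
  by_cases h0 : C.σ j v = 0
  · exact (C.H2 j v h0).le
  · rw [C.H1 j v h0]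
    rcases C.h01 j v h0 with h1 | h1 <;> simp [h1]

omit [DecidableEq V] [Finite J] [Nonempty J] [FiniteDimensional ℝ E] in
lemma term_le (j : J) (z : V → ℝ) (v : V) : z v * C.u j (C.p v) ≤ |z v| := by
  calc z v * C.u j (C.p v) ≤ |z v * C.u j (C.p v)| := le_abs_self _
    _ = |z v| * |C.u j (C.p v)| := abs_mul _ _
    _ ≤ |z v| * 1 := by
      apply mul_le_mul_of_nonneg_left (C.abs_u_le j v) (abs_nonneg _)
    _ = |z v| := mul_one _

omit [DecidableEq V] [Finite J] [Nonempty J] [FiniteDimensional ℝ E] in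
lemma u_Y_le (j : J) (z : V → ℝ) : C.u j (C.Y z) ≤ ∑ v, |z v| := by
  rw [C.u_Y]; exact Finset.sum_le_sum fun v _ => C.term_le j z v

omit [DecidableEq V] [Finite J] [Nonempty J] [FiniteDimensional ℝ E] in
lemma comp_of_eq (j : J) (z : V → ℝ) (h : C.u j (C.Y z) = ∑ v, |z v|) : C.Comp j z := by
  rw [C.u_Y] at h
  have h2 := (Finset.sum_eq_sum_iff_of_le (fun v _ => C.term_le j z v)).1 h
  intro v
  have hv := h2 v (Finset.mem_univ v)
  constructor
  · by_cases h0 : C.σ j v = 0
    · simp [h0]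
    · rw [C.H1 j v h0] at hv
      rw [mul_comm, hv]; exact abs_nonneg _
  · intro h0
    have h3 := C.H2 j v h0
    by_contra hz
    have h4 : |z v| * |C.u j (C.p v)| < |z v| * 1 :=
      mul_lt_mul_of_pos_left h3 (abs_pos.2 hz)
    have h5 : z v * C.u j (C.p v) ≤ |z v| * |C.u j (C.p v)| := by
      rw [← abs_mul]; exact le_abs_self _
    linarith

omit [DecidableEq V] [Finite J] [Nonempty J] [FiniteDimensional ℝ E] in
lemma indep (j : J) (c : V → ℝ) (hc : ∀ v, C.σ j v = 0 → c v = 0) (h : C.Y c = 0) :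
    ∀ v, c v = 0 := by
  intro v
  by_cases h0 : C.σ j v = 0
  · exact hc v h0
  obtain ⟨k, hk, hkv⟩ := C.H3 j v h0
  have e1 : C.u j (C.Y c) = 0 := by rw [h]; simp
  have e2 : C.u k (C.Y c) = 0 := by rw [h]; simp
  rw [C.u_Y] at e1 e2
  have e3 : ∑ w, (c w * C.u j (C.p w) - c w * C.u k (C.p w)) = 0 := by
    rw [Finset.sum_sub_distrib, e1, e2, sub_zero]
  rw [Finset.sum_eq_single v] at e3
  · have hne : C.u j (C.p v) - C.u k (C.p v) ≠ 0 := by
      rw [C.H1 j v h0]
      intro heq
      by_cases hk0 : C.σ k v = 0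
      · have := C.H2 k v hk0
        rw [abs_lt] at this
        rcases C.h01 j v h0 with h1 | h1 <;> rw [h1] at heq <;> linarith
      · rw [C.H1 k v hk0] at heq
        exact hkv (by linarith)
    rw [← mul_sub] at e3
    rcases mul_eq_zero.1 e3 with h | h
    · exact h
    · exact absurd h hne
  · intro w _ hwv
    by_cases hw0 : C.σ j w = 0
    · simp [hc w hw0]
    · have hkw := hk w hwv hw0
      rw [C.H1 j w hw0, C.H1 k w (by rw [hkw]; exact hw0), hkw, sub_self]
  · intro h; exact absurd (Finset.mem_univ v) h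

omit [DecidableEq V] [Finite J] [Nonempty J] in
lemma span (j : J) (y : E) : ∃ c : V → ℝ, (∀ v, C.σ j v = 0 → c v = 0) ∧ C.Y c = y := by
  classical
  let ext : ({v // C.σ j v ≠ 0} → ℝ) → V → ℝ := fun c v => if h : C.σ j v = 0 then 0 else c ⟨v, h⟩
  let L : ({v // C.σ j v ≠ 0} → ℝ) →ₗ[ℝ] E :=
    { toFun := fun c => C.Y (ext c)
      map_add' := by
        intro a b
        simp only [Y, ← Finset.sum_add_distrib]
        refine Finset.sum_congr rfl fun v _ => ?_
        by_cases h : C.σ j v = 0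
        · simp [ext, h]
        · simp [ext, h, add_smul]
      map_smul' := by
        intro r a
        simp only [Y, RingHom.id_apply, Finset.smul_sum]
        refine Finset.sum_congr rfl fun v _ => ?_
        by_cases h : C.σ j v = 0
        · simp [ext, h]
        · simp [ext, h, mul_smul] }
  have hinj : Function.Injective L := by
    rw [injective_iff_map_eq_zero]
    intro c hc
    have h1 := C.indep j (ext c) (fun v hv => by simp [ext, hv]) hc
    funext ⟨v, hv⟩
    have := h1 v
    simpa [ext, hv] using this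
  have hfr : Module.finrank ℝ ({v // C.σ j v ≠ 0} → ℝ) = Module.finrank ℝ E := by
    rw [Module.finrank_fintype_fun_eq_card, C.H4 j]
  have hsurj : Function.Surjective L :=
    (LinearMap.injective_iff_surjective_of_finrank_eq_finrank hfr).1 hinj
  obtain ⟨c, hc⟩ := hsurj y
  exact ⟨ext c, fun v hv => by simp [ext, hv], hc⟩

omit [DecidableEq V] in
lemma surj (y : E) (hy : y ≠ 0) :
    ∃ (j : J) (c : V → ℝ), C.Comp j c ∧ 0 < ∑ v, |c v| ∧ C.Y c = y := by
  obtain ⟨j, hj⟩ := Finite.exists_max (fun j => C.u j y)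
  obtain ⟨c, hc, hcy⟩ := C.span j y
  have hcomp : C.Comp j c := by
    intro v
    refine ⟨?_, hc v⟩
    by_contra hneg
    push Not at hneg
    have h0 : C.σ j v ≠ 0 := by
      intro h0; rw [h0] at hneg; simp at hneg
    obtain ⟨k, hk, hkv⟩ := C.H3 j v h0
    have hle := hj k
    rw [← hcy, C.u_Y, C.u_Y] at hle
    have e3 : ∑ w, (c w * C.u k (C.p w) - c w * C.u j (C.p w)) ≤ 0 := by
      rw [Finset.sum_sub_distrib]; linarith
    rw [Finset.sum_eq_single v] at e3
    · rw [C.H1 j v h0] at e3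
      have hk1 := C.abs_u_le k v
      rw [abs_le] at hk1
      have hkne : C.u k (C.p v) ≠ C.σ j v := by
        intro heq
        by_cases hk0 : C.σ k v = 0
        · have := C.H2 k v hk0
          rw [abs_lt] at this
          rcases C.h01 j v h0 with h1 | h1 <;> rw [h1] at heq <;> linarith
        · rw [C.H1 k v hk0] at heq
          exact hkv heq
      rcases C.h01 j v h0 with h1 | h1
      · rw [h1] at e3 hneg hkne
        have hlt : C.u k (C.p v) < 1 := lt_of_le_of_ne hk1.2 hkne
        have : c v < 0 := by linarith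
        nlinarith
      · rw [h1] at e3 hneg hkne
        have hlt : -1 < C.u k (C.p v) := lt_of_le_of_ne hk1.1 (Ne.symm hkne)
        have : 0 < c v := by linarith
        nlinarith
    · intro w _ hwv
      by_cases hw0 : C.σ j w = 0
      · simp [hc w hw0]
      · have hkw := hk w hwv hw0
        rw [C.H1 j w hw0, C.H1 k w (by rw [hkw]; exact hw0), hkw, sub_self]
    · intro h; exact absurd (Finset.mem_univ v) h
  refine ⟨j, c, hcomp, ?_, hcy⟩
  rcases (Finset.sum_nonneg (fun v (_ : v ∈ (Finset.univ : Finset V)) => abs_nonneg (c v))).lt_or_eq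
    with h | h
  · exact h
  · exfalso
    apply hy
    rw [← hcy]
    have h2 := (Finset.sum_eq_zero_iff_of_nonneg (fun v _ => abs_nonneg (c v))).1 h.symm
    simp only [Y]
    refine Finset.sum_eq_zero fun v hv => ?_
    have := h2 v hv
    rw [abs_eq_zero] at this
    simp [this]

/-- The signed realization: boundary of the polytope in signed barycentric coordinates. -/
def X : Set (V → ℝ) := {z | ∑ v, |z v| = 1 ∧ ∃ j, C.Comp j z}

/-- The realization of the quotient complex. -/
def R : Set (V → ℝ) :=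
  {x | (∀ v, 0 ≤ x v) ∧ ∑ v, x v = 1 ∧ ∃ j, ∀ v, C.σ j v = 0 → x v = 0}

omit [DecidableEq V] [Nonempty J] [FiniteDimensional ℝ E] in
lemma isCompact_X : IsCompact C.X := by
  have hcl : IsClosed C.X := by
    have : C.X = {z : V → ℝ | ∑ v, |z v| = 1} ∩ ⋃ j, ⋂ v,
        ({z : V → ℝ | 0 ≤ C.σ j v * z v} ∩ {z : V → ℝ | C.σ j v = 0 → z v = 0}) := by
      ext z
      simp [X, Comp, Set.mem_iUnion, Set.mem_iInter, forall_and]
    rw [this]
    refine IsClosed.inter ?_ ?_
    · exact isClosed_eq (by fun_prop) continuous_const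
    · refine isClosed_iUnion_of_finite fun j => isClosed_iInter fun v => IsClosed.inter ?_ ?_
      · exact isClosed_le continuous_const (by fun_prop)
      · by_cases h : C.σ j v = 0
        · simp only [h, true_imp_iff]
          exact isClosed_eq (by fun_prop) continuous_const
        · simp [h]
  refine Metric.isCompact_of_isClosed_isBounded hcl ?_
  refine (Metric.isBounded_closedBall (x := (0 : V → ℝ)) (r := 1)).subset ?_
  intro z hz
  rw [mem_closedBall_zero_iff, pi_norm_le_iff_of_nonneg zero_le_one]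
  intro v
  rw [Real.norm_eq_abs, ← hz.1]
  exact Finset.single_le_sum (f := fun v => |z v|) (fun w _ => abs_nonneg _) (Finset.mem_univ v)

omit [DecidableEq V] [Finite J] [Nonempty J] [FiniteDimensional ℝ E] in
lemma Y_ne_zero {z : V → ℝ} (hz : z ∈ C.X) : C.Y z ≠ 0 := by
  obtain ⟨h1, j, hj⟩ := hz
  intro h
  have := hj.u_Y_eq
  rw [h, h1] at this
  simp at this

/-- The radial projection. -/
noncomputable def g (z : C.X) : Metric.sphere (0 : E) 1 :=
  ⟨‖C.Y z‖⁻¹ • C.Y z, by
    rw [mem_sphere_zero_iff_norm, norm_smul, norm_inv, norm_norm]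
    exact inv_mul_cancel₀ (norm_ne_zero_iff.2 (C.Y_ne_zero z.2))⟩

omit [DecidableEq V] [Finite J] [Nonempty J] [FiniteDimensional ℝ E] in
lemma continuous_Y : Continuous C.Y := by
  unfold Y; fun_prop

omit [DecidableEq V] [Finite J] [Nonempty J] [FiniteDimensional ℝ E] in
lemma continuous_g : Continuous C.g := by
  unfold g
  refine Continuous.subtype_mk ?_ _
  have h1 : Continuous fun z : C.X => C.Y z := C.continuous_Y.comp continuous_subtype_val
  exact (h1.norm.inv₀ fun z => norm_ne_zero_iff.2 (C.Y_ne_zero z.2)).smul h1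

omit [DecidableEq V] [Finite J] [Nonempty J] [FiniteDimensional ℝ E] in
lemma g_injective : Function.Injective C.g := by
  intro z z' h
  have h' : ‖C.Y z‖⁻¹ • C.Y z = ‖C.Y z'‖⁻¹ • C.Y (z' : V → ℝ) := congrArg Subtype.val h
  have hz := norm_pos_iff.2 (C.Y_ne_zero z.2)
  have hz' := norm_pos_iff.2 (C.Y_ne_zero z'.2)
  obtain ⟨t, ht, hYt⟩ : ∃ t : ℝ, 0 < t ∧ C.Y z = t • C.Y (z' : V → ℝ) := by
    refine ⟨‖C.Y z‖ * ‖C.Y z'‖⁻¹, by positivity, ?_⟩
    rw [mul_smul, ← h', smul_smul, mul_inv_cancel₀ hz.ne', one_smul]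
  obtain ⟨s1, j, hj⟩ := z.2
  obtain ⟨s1', j', hj'⟩ := z'.2
  have e1 : C.u j (C.Y z) = 1 := by rw [hj.u_Y_eq, s1]
  have e2 : C.u j' (C.Y z') = 1 := by rw [hj'.u_Y_eq, s1']
  have l1 : C.u j (C.Y z') ≤ 1 := by rw [← s1']; exact C.u_Y_le j _
  have l2 : C.u j' (C.Y z) ≤ 1 := by rw [← s1]; exact C.u_Y_le j' _
  rw [hYt, map_smul, smul_eq_mul] at e1 l2
  rw [e2, mul_one] at l2
  have ht1 : t = 1 := by
    apply le_antisymm l2
    by_contra hlt
    push Not at hlt
    have h3 : 0 < C.u j (C.Y z') := by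
      by_contra h4
      push Not at h4
      nlinarith
    nlinarith
  rw [ht1, one_mul] at e1
  have hcomp' : C.Comp j z' := C.comp_of_eq j z' (by rw [e1, s1'])
  have hY : C.Y (fun v => (z : V → ℝ) v - (z' : V → ℝ) v) = 0 := by
    have : C.Y z - C.Y z' = 0 := by rw [hYt, ht1, one_smul, sub_self]
    rw [← this]
    simp only [Y, sub_smul, Finset.sum_sub_distrib]
  have h0 := C.indep j _ (fun v hv => by simp [(hj v).2 hv, (hcomp' v).2 hv]) hY
  apply Subtype.ext
  funext v
  have := h0 v
  linarith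

omit [DecidableEq V] in
lemma g_surjective : Function.Surjective C.g := by
  intro y
  have hy1 : ‖(y : E)‖ = 1 := mem_sphere_zero_iff_norm.1 y.2
  have hy : (y : E) ≠ 0 := by
    intro h; rw [h] at hy1; simp at hy1
  obtain ⟨j, c, hc, hpos, hcy⟩ := C.surj y hy
  set M := ∑ v, |c v| with hM
  have hYM : C.Y (fun v => M⁻¹ * c v) = M⁻¹ • (y : E) := by
    rw [← hcy]
    simp only [Y, mul_smul, Finset.smul_sum]
  refine ⟨⟨fun v => M⁻¹ * c v, ?_, j, ?_⟩, ?_⟩
  · simp only [abs_mul, ← Finset.mul_sum, ← hM]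
    rw [abs_of_pos (inv_pos.2 hpos)]
    exact inv_mul_cancel₀ hpos.ne'
  · intro v
    constructor
    · have := (hc v).1
      have : 0 ≤ M⁻¹ * (C.σ j v * c v) := mul_nonneg (inv_pos.2 hpos).le this
      linarith [mul_left_comm (C.σ j v) M⁻¹ (c v)]
    · intro h0; simp [(hc v).2 h0]
  · apply Subtype.ext
    change ‖C.Y (fun v => M⁻¹ * c v)‖⁻¹ • C.Y (fun v => M⁻¹ * c v) = (y : E)
    rw [hYM, norm_smul, hy1, mul_one, norm_inv, inv_inv, Real.norm_of_nonneg hpos.le, smul_smul,
      mul_inv_cancel₀ hpos.ne', one_smul]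

omit [DecidableEq V] [Finite J] [Nonempty J] [FiniteDimensional ℝ E] in
lemma neg_mem {z : V → ℝ} (hz : z ∈ C.X) : -z ∈ C.X := by
  obtain ⟨h1, j, hj⟩ := hz
  obtain ⟨k, hk⟩ := C.neg j
  refine ⟨by simpa using h1, k, fun v => ⟨?_, fun h => ?_⟩⟩
  · rw [hk v]
    have := (hj v).1
    simpa using this
  · rw [hk v, neg_eq_zero] at h
    simp [(hj v).2 h]

omit [DecidableEq V] [Finite J] [Nonempty J] [FiniteDimensional ℝ E] in
lemma g_neg (z : C.X) : C.g ⟨-z, C.neg_mem z.2⟩ = - C.g z := by
  apply Subtype.ext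
  have : C.Y (-(z : V → ℝ)) = - C.Y z := by
    simp [Y]
  change ‖C.Y (-(z : V → ℝ))‖⁻¹ • C.Y (-(z : V → ℝ)) = -(‖C.Y z‖⁻¹ • C.Y z)
  rw [this, norm_neg, smul_neg]

/-- absolute values of the signed coordinates -/
def absMap (z : C.X) : C.R :=
  ⟨fun v => |(z : V → ℝ) v|, fun v => abs_nonneg _, z.2.1, by
    obtain ⟨_, j, hj⟩ := z.2
    exact ⟨j, fun v hv => by simp [(hj v).2 hv]⟩⟩

omit [DecidableEq V] [Finite J] [Nonempty J] [FiniteDimensional ℝ E] in
lemma continuous_absMap : Continuous C.absMap := by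
  unfold absMap
  refine Continuous.subtype_mk ?_ _
  exact continuous_pi fun v =>
    continuous_abs.comp ((continuous_apply v).comp continuous_subtype_val)

omit [DecidableEq V] [Finite J] [Nonempty J] [FiniteDimensional ℝ E] in
lemma absMap_surjective : Function.Surjective C.absMap := by
  rintro ⟨x, hx0, hx1, j, hj⟩
  have habs : ∀ v, |C.σ j v * x v| = x v := by
    intro v
    by_cases h0 : C.σ j v = 0
    · simp [h0, hj v h0]
    · rcases C.h01 j v h0 with h1 | h1 <;> simp [h1, abs_of_nonneg (hx0 v)]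
  refine ⟨⟨fun v => C.σ j v * x v, ?_, j, ?_⟩, ?_⟩
  · simp only [habs, hx1]
  · intro v
    refine ⟨?_, fun h => by simp [h]⟩
    rw [← mul_assoc]
    exact mul_nonneg (mul_self_nonneg _) (hx0 v)
  · apply Subtype.ext
    funext v
    exact habs v

omit [DecidableEq V] [Finite J] [Nonempty J] [FiniteDimensional ℝ E] in
lemma Comp.sign {C : Cert V J E} {j : J} {z : V → ℝ} (h : C.Comp j z) {v : V} (hv : z v ≠ 0) :
    C.σ j v ≠ 0 ∧ z v = C.σ j v * |z v| := by
  have h0 : C.σ j v ≠ 0 := fun h0 => hv ((h v).2 h0)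
  refine ⟨h0, ?_⟩
  have := (h v).1
  rcases C.h01 j v h0 with h1 | h1
  · rw [h1] at this ⊢
    rw [abs_of_nonneg (by linarith)]; ring
  · rw [h1] at this ⊢
    rw [abs_of_nonpos (by linarith)]; ring

omit [DecidableEq V] [Finite J] [Nonempty J] [FiniteDimensional ℝ E] in
lemma absMap_eq_iff (z z' : C.X) :
    C.absMap z = C.absMap z' ↔ (z' : V → ℝ) = z ∨ (z' : V → ℝ) = -z := by
  constructor
  · intro h
    have habs : ∀ v, |(z : V → ℝ) v| = |(z' : V → ℝ) v| := fun v =>
      congrFun (congrArg Subtype.val h) v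
    obtain ⟨s1, j, hj⟩ := z.2
    obtain ⟨s1', j', hj'⟩ := z'.2
    -- pick a vertex in the support
    have hex : ∃ v0, (z : V → ℝ) v0 ≠ 0 := by
      by_contra hcon
      push Not at hcon
      simp [hcon] at s1
    obtain ⟨v0, hv0⟩ := hex
    have hv0' : (z' : V → ℝ) v0 ≠ 0 := by
      rw [← abs_ne_zero, ← habs, abs_ne_zero]; exact hv0
    obtain ⟨a0, a1⟩ := hj.sign hv0
    obtain ⟨b0, b1⟩ := hj'.sign hv0'
    have key : ∀ v, C.σ j v0 * (z : V → ℝ) v = C.σ j' v0 * (z' : V → ℝ) v := by
      intro v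
      by_cases hv : (z : V → ℝ) v = 0
      · have : (z' : V → ℝ) v = 0 := by
          rw [← abs_eq_zero, ← habs, hv, abs_zero]
        rw [hv, this]; simp
      · have hv' : (z' : V → ℝ) v ≠ 0 := by
          rw [← abs_ne_zero, ← habs, abs_ne_zero]; exact hv
        obtain ⟨c0, c1⟩ := hj.sign hv
        obtain ⟨d0, d1⟩ := hj'.sign hv'
        rw [c1, d1, habs v, ← mul_assoc, ← mul_assoc, C.H5 j j' v0 v a0 c0 b0 d0]
    rcases C.h01 j v0 a0 with h1 | h1 <;> rcases C.h01 j' v0 b0 with h2 | h2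
    · left; funext v; have := key v; rw [h1, h2] at this; linarith
    · right; funext v; have := key v; rw [h1, h2] at this; simp; linarith
    · right; funext v; have := key v; rw [h1, h2] at this; simp; linarith
    · left; funext v; have := key v; rw [h1, h2] at this; linarith
  · rintro (h | h)
    · apply Subtype.ext; funext v; simp [absMap, h]
    · apply Subtype.ext; funext v; simp [absMap, h]

omit [DecidableEq V] in
/-- The quotient of the unit sphere by the antipodal relation is homeomorphic to the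
realization of the quotient complex. -/
theorem homeo (s : Setoid (Metric.sphere (0 : E) 1))
    (hs : ∀ x y : Metric.sphere (0 : E) 1, s x y ↔ (y = x ∨ y = -x)) :
    Nonempty (C.R ≃ₜ Quotient s) := by
  classical
  have : CompactSpace C.X := isCompact_iff_compactSpace.1 C.isCompact_X
  let gE : C.X ≃ Metric.sphere (0 : E) 1 := Equiv.ofBijective C.g ⟨C.g_injective, C.g_surjective⟩
  let gH : C.X ≃ₜ Metric.sphere (0 : E) 1 :=
    Continuous.homeoOfEquivCompactToT2 (f := gE) C.continuous_g
  have hgH : ∀ z, gH z = C.g z := fun z => rfl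
  have : CompactSpace (Metric.sphere (0 : E) 1) := gH.compactSpace
  have hcont : Continuous (fun y => C.absMap (gH.symm y)) :=
    C.continuous_absMap.comp gH.symm.continuous
  have hiff : ∀ x y : Metric.sphere (0 : E) 1,
      C.absMap (gH.symm x) = C.absMap (gH.symm y) ↔ s x y := by
    intro x y
    rw [hs, C.absMap_eq_iff]
    constructor
    · rintro (h | h)
      · left
        exact gH.symm.injective (Subtype.ext h)
      · right
        have h2 : gH.symm y = ⟨-(gH.symm x : V → ℝ), C.neg_mem (gH.symm x).2⟩ := Subtype.ext h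
        have h3 := congrArg gH h2
        rw [gH.apply_symm_apply, hgH, C.g_neg, ← hgH, gH.apply_symm_apply] at h3
        exact h3
    · rintro (h | h)
      · left; rw [h]
      · right
        have h3 : gH ⟨-(gH.symm x : V → ℝ), C.neg_mem (gH.symm x).2⟩ = y := by
          rw [hgH, C.g_neg, ← hgH, gH.apply_symm_apply, h]
        rw [← h3, gH.symm_apply_apply]
  let φ : Quotient s → C.R := Quotient.lift (fun y => C.absMap (gH.symm y))
    (fun a b hab => (hiff a b).2 hab)
  have hφc : Continuous φ := hcont.quotient_lift _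
  have hφb : Function.Bijective φ := by
    constructor
    · intro a b
      refine Quotient.inductionOn₂ a b fun x y hxy => ?_
      exact Quotient.sound ((hiff x y).1 hxy)
    · intro x
      obtain ⟨z, hz⟩ := C.absMap_surjective x
      refine ⟨Quotient.mk s (gH z), ?_⟩
      change C.absMap (gH.symm (gH z)) = x
      rw [gH.symm_apply_apply, hz]
  exact ⟨(Continuous.homeoOfEquivCompactToT2 (f := Equiv.ofBijective φ hφb) hφc).symm⟩

/-! ### The simplicial complex -/

/-- the abstract complex -/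
def abs : PreAbstractSimplicialComplex V where
  faces := {t | t.Nonempty ∧ ∃ j, ∀ v ∈ t, C.σ j v ≠ 0}
  isRelLowerSet_faces := by
    rintro t ⟨ht, j, hj⟩
    refine ⟨ht, fun t' h1 h2 => ⟨h2, j, fun v hv => hj v (h1 hv)⟩⟩

omit [DecidableEq V] [Finite J] [Nonempty J] [FiniteDimensional ℝ E] in
lemma mem_hull [DecidableEq V] (t : Finset V) (x : V → ℝ) :
    x ∈ convexHull ℝ ((t.image (fun v => (Pi.single v (1 : ℝ) : V → ℝ)) : Finset (V → ℝ)) : Set (V → ℝ))
      ↔ (∀ v, 0 ≤ x v) ∧ ∑ v, x v = 1 ∧ ∀ v, v ∉ t → x v = 0 := by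
  constructor
  · intro hx
    have hconv : Convex ℝ {x : V → ℝ | (∀ v, 0 ≤ x v) ∧ ∑ v, x v = 1 ∧ ∀ v, v ∉ t → x v = 0} := by
      intro a ha b hb r q hr hq hrq
      refine ⟨fun v => ?_, ?_, fun v hv => ?_⟩
      · have h1 := ha.1 v
        have h2 := hb.1 v
        simp only [Pi.add_apply, Pi.smul_apply, smul_eq_mul]
        positivity
      · simp only [Pi.add_apply, Pi.smul_apply, smul_eq_mul, Finset.sum_add_distrib,
          ← Finset.mul_sum, ha.2.1, hb.2.1]
        linarith
      · simp [ha.2.2 v hv, hb.2.2 v hv]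
    refine convexHull_min ?_ hconv hx
    intro y hy
    simp only [Finset.coe_image, Set.mem_image, Finset.mem_coe] at hy
    obtain ⟨v, hv, rfl⟩ := hy
    refine ⟨fun w => ?_, ?_, fun w hw => ?_⟩
    · by_cases h : w = v
      · subst h; simp
      · simp [Pi.single_eq_of_ne h]
    · simp
    · have : w ≠ v := fun h => hw (h ▸ hv)
      simp [Pi.single_eq_of_ne this]
  · rintro ⟨h0, h1, h2⟩
    refine mem_convexHull_of_exists_fintype (ι := {v // v ∈ t}) (fun v => x v)
      (fun v => (Pi.single (v : V) (1 : ℝ) : V → ℝ)) (fun v => h0 v) ?_ ?_ ?_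
    · rw [← h1, Finset.sum_coe_sort t (fun v => x v)]
      exact Finset.sum_subset (Finset.subset_univ t) (fun v _ hv => h2 v hv)
    · intro v
      simp only [Finset.coe_image, Set.mem_image, Finset.mem_coe]
      exact ⟨v, v.2, rfl⟩
    · funext w
      rw [Finset.sum_apply]
      have : ∀ v : {v // v ∈ t}, (x v • (Pi.single (v : V) (1 : ℝ) : V → ℝ)) w
          = if (v : V) = w then x w else 0 := by
        intro v
        by_cases h : (v : V) = w
        · subst h; simp
        · simp [h]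
      simp only [this]
      rw [Finset.sum_coe_sort t (fun v => if v = w then x w else 0), Finset.sum_ite_eq']
      split_ifs with hw
      · rfl
      · exact (h2 w hw).symm

/-- the geometric complex spanned by basis vectors -/
noncomputable def geo : Geometry.SimplicialComplex ℝ (V → ℝ) :=
  Geometry.SimplicialComplex.ofAffineIndependent (𝕜 := ℝ)
    (C.abs.map (fun v => (Pi.single v (1 : ℝ) : V → ℝ)))
    (by
      have h := (Pi.basisFun ℝ V).linearIndependent.affineIndependent.range
      refine h.mono ?_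
      intro x hx
      simp only [Set.mem_iUnion, Finset.mem_coe] at hx
      obtain ⟨_, ⟨t, _, rfl⟩, hx⟩ := hx
      simp only [Finset.mem_image] at hx
      obtain ⟨v, _, rfl⟩ := hx
      exact ⟨v, by simp⟩)

omit [Finite J] [Nonempty J] [FiniteDimensional ℝ E] in
lemma mem_geo_faces (s : Finset (V → ℝ)) : s ∈ C.geo.faces ↔
    ∃ t : Finset V, (t.Nonempty ∧ ∃ j, ∀ v ∈ t, C.σ j v ≠ 0) ∧
      t.image (fun v => (Pi.single v (1 : ℝ) : V → ℝ)) = s := by
  rfl

omit [Finite J] [Nonempty J] [FiniteDimensional ℝ E] in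
lemma geo_space : C.geo.space = C.R := by
  ext x
  rw [Geometry.SimplicialComplex.mem_space_iff]
  constructor
  · rintro ⟨s, hs, hx⟩
    obtain ⟨t, ⟨ht, j, hj⟩, rfl⟩ := (C.mem_geo_faces s).1 hs
    obtain ⟨h0, h1, h2⟩ := (mem_hull t x).1 hx
    refine ⟨h0, h1, j, fun v hv => h2 v fun hvt => hj v hvt hv⟩
  · rintro ⟨h0, h1, j, hj⟩
    refine ⟨(Finset.univ.filter (fun v => C.σ j v ≠ 0)).image
      (fun v => (Pi.single v (1 : ℝ) : V → ℝ)), ?_, ?_⟩
    · rw [C.mem_geo_faces]
      refine ⟨_, ⟨?_, j, fun v hv => (Finset.mem_filter.1 hv).2⟩, rfl⟩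
      by_contra hne
      rw [Finset.not_nonempty_iff_eq_empty, Finset.filter_eq_empty_iff] at hne
      have : ∑ v, x v = 0 := Finset.sum_eq_zero fun v hv => hj v (not_not.1 (hne hv))
      rw [h1] at this
      exact one_ne_zero this
    · rw [mem_hull]
      refine ⟨h0, h1, fun v hv => hj v ?_⟩
      simpa using hv

/-- Main theorem of the certificate. -/
theorem exists_complex (hcov : ∀ v, ∃ j, C.σ j v ≠ 0)
    (s : Setoid (Metric.sphere (0 : E) 1))
    (hs : ∀ x y : Metric.sphere (0 : E) 1, s x y ↔ (y = x ∨ y = -x)) :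
    ∃ K : Geometry.SimplicialComplex ℝ (V → ℝ), K.faces.Finite ∧
      K.vertices.ncard = Fintype.card V ∧ Nonempty (K.space ≃ₜ Quotient s) := by
  refine ⟨C.geo, ?_, ?_, ?_⟩
  · refine (Set.finite_range (fun t : Finset V =>
      t.image (fun v => (Pi.single v (1 : ℝ) : V → ℝ)))).subset ?_
    intro s hs
    obtain ⟨t, _, rfl⟩ := (C.mem_geo_faces s).1 hs
    exact ⟨t, rfl⟩
  · have hv : C.geo.vertices = Set.range (fun v => (Pi.single v (1 : ℝ) : V → ℝ)) := by
      ext x
      rw [Geometry.SimplicialComplex.mem_vertices, C.mem_geo_faces]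
      constructor
      · rintro ⟨t, ⟨⟨v, hv⟩, _⟩, ht⟩
        refine ⟨v, ?_⟩
        have : (Pi.single v (1 : ℝ) : V → ℝ) ∈ t.image (fun v => (Pi.single v (1 : ℝ) : V → ℝ)) :=
          Finset.mem_image_of_mem _ hv
        rw [ht, Finset.mem_singleton] at this
        exact this
      · rintro ⟨v, rfl⟩
        obtain ⟨j, hj⟩ := hcov v
        exact ⟨{v}, ⟨Finset.singleton_nonempty v, j, fun w hw => by
          rw [Finset.mem_singleton] at hw; rw [hw]; exact hj⟩, by simp⟩
    have hinj : Function.Injective (fun v => (Pi.single v (1 : ℝ) : V → ℝ)) := by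
      intro v w h
      by_contra hne
      have := congrFun h v
      simp only [Pi.single_eq_same] at this
      rw [Pi.single_eq_of_ne hne] at this
      exact one_ne_zero this
    rw [hv, Set.ncard_range_of_injective hinj, Nat.card_eq_fintype_card]
  · obtain ⟨e⟩ := C.homeo s hs
    exact ⟨(Homeomorph.setCongr C.geo_space).trans e⟩

end Cert

end Pool.Agent.Lib.MP_b4345b_gt
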