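import Mathlib
import Pool.Agent.Lib.MP_b4345b_gt.Core

/-!
Fast Boolean checks (evaluated by the kernel) for the polytope certificate and their soundness.
-/

open Finset

namespace Pool.Agent.Lib.MP_b4345b_gt

/-- point record: `a k = p k + 256`, `A = 2^48 * ∑ a k`, and the masks of the vertices which may
be joined with sign `+` (`EP`) or `-` (`EM`) to this vertex. -/
inductive PR where
  | mk (a0 a1 a2 a3 a4 a5 a6 A EP EM : ℕ)

def band (b x : Bool) : Bool := @Bool.rec (fun _ => Bool) false x b
def bite (b x y : Bool) : Bool := @Bool.rec (fun _ => Bool) y x b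
def nite (b : Bool) (x y : ℕ) : ℕ := @Bool.rec (fun _ => ℕ) y x b

lemma band_eq {b x : Bool} : band b x = true ↔ b = true ∧ x = true := by
  cases b <;> simp [band]

lemma bite_eq {b x y : Bool} :
    bite b x y = true ↔ (b = true ∧ x = true) ∨ (b = false ∧ y = true) := by
  cases b <;> simp [bite]

lemma nite_eq {b : Bool} {x y : ℕ} : nite b x y = if b = true then x else y := by
  cases b <;> simp [nite]

def bit (m v : ℕ) : Bool := Nat.beq (Nat.land (Nat.shiftRight m v) (nat_lit 1)) (nat_lit 1)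

lemma bit_eq (m v : ℕ) : bit m v = m.testBit v := by
  have h1 : Nat.land (Nat.shiftRight m v) (nat_lit 1) = (m >>> v) &&& 1 := rfl
  have h2 : (m >>> v) &&& 1 = (m >>> v) % 2 := Nat.and_one_is_mod _
  unfold bit
  rw [h1, h2, Nat.testBit_eq_decide_div_mod_eq, Nat.shiftRight_eq_div_pow]
  rw [Bool.eq_iff_iff, Nat.beq_eq, decide_eq_true_iff]

lemma nbeq {a b : ℕ} : Nat.beq a b = true ↔ a = b := by
  rw [Nat.beq_eq]

lemma nble {a b : ℕ} : Nat.ble a b = true ↔ a ≤ b := by
  rw [Nat.ble_eq]

/-- check of one vertex against one facet -/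
noncomputable def vtest (mP mM c B b0 b1 b2 b3 b4 b5 b6 v : ℕ) (p : PR) : Bool :=
  @PR.rec (fun _ => Bool) (fun a0 a1 a2 a3 a4 a5 a6 A EP EM =>
    bite (bit mP v)
      (band (Nat.beq
        (Nat.add (nat_lit 504403158265495552) (Nat.add (Nat.mul a0 b0) (Nat.add (Nat.mul a1 b1)
          (Nat.add (Nat.mul a2 b2) (Nat.add (Nat.mul a3 b3) (Nat.add (Nat.mul a4 b4)
          (Nat.add (Nat.mul a5 b5) (Nat.mul a6 b6))))))))
        (Nat.add (Nat.add A B) c))
        (band (Nat.beq (Nat.land mP EP) mP) (Nat.beq (Nat.land mM EM) mM)))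
      (bite (bit mM v)
        (band (Nat.beq
          (Nat.add (Nat.add (nat_lit 504403158265495552) (Nat.add (Nat.mul a0 b0)
            (Nat.add (Nat.mul a1 b1) (Nat.add (Nat.mul a2 b2) (Nat.add (Nat.mul a3 b3)
            (Nat.add (Nat.mul a4 b4) (Nat.add (Nat.mul a5 b5) (Nat.mul a6 b6)))))))) c)
          (Nat.add A B))
          (band (Nat.beq (Nat.land mM EP) mM) (Nat.beq (Nat.land mP EM) mP)))
        (band (Nat.ble
          (Nat.succ (Nat.add (nat_lit 504403158265495552) (Nat.add (Nat.mul a0 b0)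
            (Nat.add (Nat.mul a1 b1) (Nat.add (Nat.mul a2 b2) (Nat.add (Nat.mul a3 b3)
            (Nat.add (Nat.mul a4 b4) (Nat.add (Nat.mul a5 b5) (Nat.mul a6 b6)))))))))
          (Nat.add (Nat.add A B) c))
          (Nat.ble (Nat.succ (Nat.add A B))
          (Nat.add (Nat.add (nat_lit 504403158265495552) (Nat.add (Nat.mul a0 b0)
            (Nat.add (Nat.mul a1 b1) (Nat.add (Nat.mul a2 b2) (Nat.add (Nat.mul a3 b3)
            (Nat.add (Nat.mul a4 b4) (Nat.add (Nat.mul a5 b5) (Nat.mul a6 b6)))))))) c))))) p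

/-- well-formedness of a point record -/
noncomputable def ptOK (p : PR) : Bool :=
  @PR.rec (fun _ => Bool) (fun a0 a1 a2 a3 a4 a5 a6 A EP EM =>
    band (Nat.beq A (Nat.mul (nat_lit 281474976710656) (Nat.add a0 (Nat.add a1 (Nat.add a2
      (Nat.add a3 (Nat.add a4 (Nat.add a5 a6))))))))
    (Nat.beq (Nat.land EP EM) (nat_lit 0))) p

/-- check a list with index -/
def allIdx {α : Type} (f : ℕ → α → Bool) (l : List α) : ℕ → Bool :=
  @List.rec α (fun _ => ℕ → Bool) (fun _ => true)
    (fun a _ ih k => band (f k a) (ih (Nat.succ k))) l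

lemma allIdx_sound {α : Type} (f : ℕ → α → Bool) (l : List α) (k : ℕ)
    (h : allIdx f l k = true) : ∀ t (ht : t < l.length), f (k + t) l[t] = true := by
  induction l generalizing k with
  | nil => intro t ht; simp at ht
  | cons a l ih =>
    have h' : band (f k a) (allIdx f l (Nat.succ k)) = true := h
    rw [band_eq] at h'
    intro t ht
    cases t with
    | zero => simpa using h'.1
    | succ t =>
      have := ih (Nat.succ k) h'.2 t (by simpa using ht)
      have e : k + (t + 1) = Nat.succ k + t := by omega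
      rw [e]
      simpa using this

/-- row access -/
def getRow (l : List ℕ) : ℕ → ℕ :=
  @List.rec ℕ (fun _ => ℕ → ℕ) (fun _ => nat_lit 0)
    (fun a _ ih i => nite (Nat.beq i (nat_lit 0)) a (ih (Nat.sub i (nat_lit 1)))) l

/-- table of the masks of the facets: rows of 128 masks of 128 bits each -/
def tab (rows : List ℕ) (j : ℕ) : ℕ :=
  Nat.land (Nat.shiftRight (getRow rows (Nat.shiftRight j (nat_lit 7)))
    (Nat.mul (nat_lit 128) (Nat.land j (nat_lit 127)))) (nat_lit 340282366920938463463374607431768211455)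

def mLow : ℕ := nat_lit 18446744073709551615

/-- swap the two 64-bit halves -/
def swap (q : ℕ) : ℕ :=
  Nat.lor (Nat.shiftRight q (nat_lit 64)) (Nat.shiftLeft (Nat.land q (nat_lit 18446744073709551615)) (nat_lit 64))

/-- neighbour check: the facet number `code / 2` (negated if `code` is odd) contains all signed
vertices of `m` other than the one at `v`, and not the one at `v`. -/
def nbCheck (T : ℕ → ℕ) (N m v code : ℕ) : Bool :=
  band (Nat.ble (Nat.succ (Nat.shiftRight code (nat_lit 1))) N)
  (band (Nat.beq (Nat.land (Nat.xor m (Nat.land m (Nat.shiftLeft (nat_lit 18446744073709551617) v)))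
      (nite (Nat.beq (Nat.land code (nat_lit 1)) (nat_lit 0)) (T (Nat.shiftRight code (nat_lit 1)))
        (swap (T (Nat.shiftRight code (nat_lit 1))))))
      (Nat.xor m (Nat.land m (Nat.shiftLeft (nat_lit 18446744073709551617) v))))
    (Nat.beq (Nat.land (Nat.land m (Nat.shiftLeft (nat_lit 18446744073709551617) v))
      (nite (Nat.beq (Nat.land code (nat_lit 1)) (nat_lit 0)) (T (Nat.shiftRight code (nat_lit 1)))
        (swap (T (Nat.shiftRight code (nat_lit 1)))))) (nat_lit 0)))

/-- loop through the neighbours; `rem` is the set of the remaining vertices -/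
def nbLoop (T : ℕ → ℕ) (N n m : ℕ) (k : ℕ) : ℕ → ℕ → Bool :=
  @Nat.rec (fun _ => ℕ → ℕ → Bool) (fun _ rem => Nat.beq rem (nat_lit 0))
    (fun _ ih W rem =>
      band (band (bit rem (Nat.land W (nat_lit 63))) (Nat.ble (Nat.succ (Nat.land W (nat_lit 63))) n))
      (band (nbCheck T N m (Nat.land W (nat_lit 63))
          (Nat.land (Nat.shiftRight W (nat_lit 6)) (nat_lit 262143)))
        (ih (Nat.shiftRight W (nat_lit 24))
          (Nat.xor rem (Nat.shiftLeft (nat_lit 1) (Nat.land W (nat_lit 63))))))) k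

/-- facet check with all data unpacked -/
noncomputable def fcheck (T : ℕ → ℕ) (N n : ℕ) (pts : List PR) (m mP mM c B b0 b1 b2 b3 b4 b5 b6 W : ℕ) : Bool :=
  band (Nat.beq (Nat.land mP mM) (nat_lit 0))
  (band (Nat.ble (nat_lit 1) c)
  (band (nbLoop T N n m (nat_lit 7) W (Nat.lor mP mM))
    (allIdx (fun v p => vtest mP mM c B b0 b1 b2 b3 b4 b5 b6 v p) pts (nat_lit 0))))

def fld (r s : ℕ) : ℕ := Nat.land (Nat.shiftRight r s) (nat_lit 72057594037927935)

/-- facet check, unpacking the record `r` -/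
noncomputable def recCheck (T : ℕ → ℕ) (N n : ℕ) (pts : List PR) (i r : ℕ) : Bool :=
  fcheck T N n pts (T i) (Nat.land (T i) (nat_lit 18446744073709551615)) (Nat.shiftRight (T i) (nat_lit 64))
    (fld r (nat_lit 0))
    (Nat.mul (nat_lit 256) (Nat.add (fld r (nat_lit 56)) (Nat.add (fld r (nat_lit 112))
      (Nat.add (fld r (nat_lit 168)) (Nat.add (fld r (nat_lit 224)) (Nat.add (fld r (nat_lit 280))
      (Nat.add (fld r (nat_lit 336)) (fld r (nat_lit 392)))))))))
    (fld r (nat_lit 56)) (fld r (nat_lit 112)) (fld r (nat_lit 168)) (fld r (nat_lit 224))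
    (fld r (nat_lit 280)) (fld r (nat_lit 336)) (fld r (nat_lit 392))
    (Nat.shiftRight r (nat_lit 448))

noncomputable def chunkCheck (rows : List ℕ) (N n : ℕ) (pts : List PR) (l : List ℕ) (i0 : ℕ) : Bool :=
  allIdx (fun i r => recCheck (tab rows) N n pts i r) l i0

/-- every vertex lies in some facet -/
def covCheck (T : ℕ → ℕ) (N : ℕ) (l : List ℕ) : Bool :=
  allIdx (fun v j => band (Nat.ble (Nat.succ j) N)
    (bite (bit (T j) v) true (bit (T j) (Nat.add (nat_lit 64) v)))) l (nat_lit 0)

end Pool.Agent.Lib.MP_b4345b_gt
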