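import Mathlib
import Pool.Agent.Lib.MP_b4345b_gt.Check

/-!
Soundness of the Boolean checks.
-/

open Finset

namespace Pool.Agent.Lib.MP_b4345b_gt

lemma tb_low (q t : ℕ) :
    (Nat.land q (nat_lit 18446744073709551615)).testBit t = (decide (t < 64) && q.testBit t) := by
  have h : Nat.land q (nat_lit 18446744073709551615) = q &&& (2 ^ 64 - 1) := rfl
  rw [h, Nat.and_two_pow_sub_one_eq_mod, Nat.testBit_mod_two_pow]

lemma tb_high (q t : ℕ) : (Nat.shiftRight q (nat_lit 64)).testBit t = q.testBit (64 + t) := by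
  have h : Nat.shiftRight q (nat_lit 64) = q >>> 64 := rfl
  rw [h, Nat.testBit_shiftRight]

lemma tb_swap (q t : ℕ) : (swap q).testBit t =
    (q.testBit (64 + t) || (decide (t ≥ 64) && (decide (t - 64 < 64) && q.testBit (t - 64)))) := by
  unfold swap
  have h : ∀ a b : ℕ, Nat.lor a b = a ||| b := fun _ _ => rfl
  have h2 : ∀ a b : ℕ, Nat.shiftLeft a b = a <<< b := fun _ _ => rfl
  rw [h, Nat.testBit_or, tb_high, h2, Nat.testBit_shiftLeft, tb_low]

lemma tb_pair (v t : ℕ) : (Nat.shiftLeft (nat_lit 18446744073709551617) v).testBit t =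
    (decide (t = v) || decide (t = 64 + v)) := by
  have h2 : Nat.shiftLeft (nat_lit 18446744073709551617) v = (2 ^ 64 ||| 2 ^ 0) <<< v := rfl
  rw [h2, Nat.testBit_shiftLeft, Nat.testBit_or, Nat.testBit_two_pow, Nat.testBit_two_pow]
  rw [Bool.eq_iff_iff]
  simp only [ge_iff_le, Bool.and_eq_true, decide_eq_true_eq, Bool.or_eq_true]
  omega

lemma tb_land (a b t : ℕ) : (Nat.land a b).testBit t = (a.testBit t && b.testBit t) :=
  Nat.testBit_and a b t

lemma tb_lor (a b t : ℕ) : (Nat.lor a b).testBit t = (a.testBit t || b.testBit t) :=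
  Nat.testBit_or a b t

lemma tb_xor (a b t : ℕ) : (Nat.xor a b).testBit t = (a.testBit t ^^ b.testBit t) :=
  Nat.testBit_xor a b t

lemma sub_of_land {a b : ℕ} (h : Nat.land a b = a) {t : ℕ} (ht : a.testBit t = true) :
    b.testBit t = true := by
  rw [← h, tb_land, Bool.and_eq_true] at ht
  exact ht.2

lemma disj_of_land {a b : ℕ} (h : Nat.land a b = 0) {t : ℕ} (ha : a.testBit t = true) :
    b.testBit t = false := by
  by_contra hb
  rw [Bool.not_eq_false] at hb
  have : (Nat.land a b).testBit t = true := by rw [tb_land, ha, hb]; rfl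
  rw [h] at this
  simp at this

/-- signed mask of the neighbour with a given code -/
def sq (T : ℕ → ℕ) (code : ℕ) : ℕ :=
  if code % 2 = 0 then T (code / 2) else swap (T (code / 2))

lemma nbCheck_sound {T : ℕ → ℕ} {N m v code : ℕ} (h : nbCheck T N m v code = true) :
    code / 2 < N ∧
    (∀ t, m.testBit t = true → t ≠ v → t ≠ 64 + v → (sq T code).testBit t = true) ∧
    (∀ t, m.testBit t = true → (t = v ∨ t = 64 + v) → (sq T code).testBit t = false) := by
  unfold nbCheck at h
  have e1 : Nat.shiftRight code (nat_lit 1) = code / 2 := rfl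
  have e2 : Nat.land code (nat_lit 1) = code % 2 := Nat.and_one_is_mod _
  have e3 : nite (Nat.beq (Nat.land code (nat_lit 1)) (nat_lit 0)) (T (Nat.shiftRight code (nat_lit 1)))
        (swap (T (Nat.shiftRight code (nat_lit 1)))) = sq T code := by
    rw [nite_eq, e1]
    unfold sq
    by_cases hc : code % 2 = 0
    · have hb : Nat.beq (Nat.land code (nat_lit 1)) (nat_lit 0) = true := by
        rw [nbeq, e2]; exact hc
      rw [if_pos hb, if_pos hc]
    · have hb : ¬ (Nat.beq (Nat.land code (nat_lit 1)) (nat_lit 0) = true) := by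
        rw [nbeq, e2]; exact hc
      rw [if_neg hb, if_neg hc]
  rw [band_eq, band_eq, e3, nble, nbeq, nbeq] at h
  obtain ⟨h1, h2, h3⟩ := h
  rw [e1] at h1
  refine ⟨h1, fun t ht hv hv' => ?_, fun t ht hv => ?_⟩
  · apply sub_of_land h2
    rw [tb_xor, tb_land, tb_pair, ht]
    simp [hv, hv']
  · apply disj_of_land h3
    rw [tb_land, tb_pair, ht]
    simpa using hv

lemma nbLoop_sound {T : ℕ → ℕ} {N n m : ℕ} (k : ℕ) : ∀ (W rem : ℕ),
    nbLoop T N n m k W rem = true →
    ∃ s : Finset ℕ, s.card = k ∧ (∀ v, v ∈ s ↔ rem.testBit v = true) ∧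
      ∀ v ∈ s, v < n ∧ ∃ code, nbCheck T N m v code = true := by
  induction k with
  | zero =>
    intro W rem h
    have h' : Nat.beq rem (nat_lit 0) = true := h
    rw [nbeq] at h'
    subst h'
    exact ⟨∅, rfl, fun v => by simp, fun v hv => by simp at hv⟩
  | succ k ih =>
    intro W rem h
    have h' : band (band (bit rem (Nat.land W (nat_lit 63)))
        (Nat.ble (Nat.succ (Nat.land W (nat_lit 63))) n))
      (band (nbCheck T N m (Nat.land W (nat_lit 63))
          (Nat.land (Nat.shiftRight W (nat_lit 6)) (nat_lit 262143)))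
        (nbLoop T N n m k (Nat.shiftRight W (nat_lit 24))
          (Nat.xor rem (Nat.shiftLeft (nat_lit 1) (Nat.land W (nat_lit 63)))))) = true := h
    rw [band_eq, band_eq, band_eq, bit_eq, nble] at h'
    obtain ⟨⟨h1, h2⟩, h3, h4⟩ := h'
    obtain ⟨s, hs1, hs2, hs3⟩ := ih _ _ h4
    set v0 := Nat.land W (nat_lit 63) with hv0
    have hsh : ∀ t, (Nat.shiftLeft (nat_lit 1) v0).testBit t = decide (t = v0) := by
      intro t
      have e : Nat.shiftLeft (nat_lit 1) v0 = 1 <<< v0 := rfl
      have e' : (1 : ℕ) <<< v0 = (2 ^ 0) <<< v0 := rfl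
      rw [e, e', Nat.testBit_shiftLeft, Nat.testBit_two_pow, Bool.eq_iff_iff]
      simp only [ge_iff_le, Bool.and_eq_true, decide_eq_true_eq]
      omega
    have hmem : ∀ t, t ∈ s ↔ (rem.testBit t = true ∧ t ≠ v0) := by
      intro t
      rw [hs2, tb_xor, hsh]
      by_cases ht : t = v0
      · subst ht; simp [h1]
      · simp [ht]
    have hv0s : v0 ∉ s := by rw [hmem]; simp
    refine ⟨insert v0 s, by rw [Finset.card_insert_of_notMem hv0s, hs1], ?_, ?_⟩
    · intro v
      rw [Finset.mem_insert, hmem]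
      by_cases hv : v = v0
      · subst hv; simp [h1]
      · simp [hv]
    · intro v hv
      rw [Finset.mem_insert] at hv
      rcases hv with rfl | hv
      · exact ⟨h2, _, h3⟩
      · exact hs3 v hv

/-- coordinates of a point record -/
def PR.co : PR → Fin 7 → ℤ
  | .mk a0 a1 a2 a3 a4 a5 a6 _ _ _ =>
    ![(a0 : ℤ) - 256, (a1 : ℤ) - 256, (a2 : ℤ) - 256, (a3 : ℤ) - 256, (a4 : ℤ) - 256,
      (a5 : ℤ) - 256, (a6 : ℤ) - 256]

def PR.ep : PR → ℕ
  | .mk _ _ _ _ _ _ _ _ EP _ => EP

def PR.em : PR → ℕ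
  | .mk _ _ _ _ _ _ _ _ _ EM => EM

lemma ptOK_sound {p : PR} (hp : ptOK p = true) : Nat.land p.ep p.em = 0 := by
  cases p with
  | mk a0 a1 a2 a3 a4 a5 a6 A EP EM =>
    change band _ _ = true at hp
    rw [band_eq, nbeq, nbeq] at hp
    exact hp.2

lemma vtest_sound {mP mM c B b0 b1 b2 b3 b4 b5 b6 v : ℕ} {p : PR} {u : Fin 7 → ℤ}
    (hp : ptOK p = true)
    (hu : u = ![(b0 : ℤ) - 281474976710656, (b1 : ℤ) - 281474976710656,
      (b2 : ℤ) - 281474976710656, (b3 : ℤ) - 281474976710656, (b4 : ℤ) - 281474976710656,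
      (b5 : ℤ) - 281474976710656, (b6 : ℤ) - 281474976710656])
    (hB : B = 256 * (b0 + (b1 + (b2 + (b3 + (b4 + (b5 + b6)))))))
    (h : vtest mP mM c B b0 b1 b2 b3 b4 b5 b6 v p = true) :
    (mP.testBit v = true →
      ∑ k, p.co k * u k = c ∧ Nat.land mP p.ep = mP ∧ Nat.land mM p.em = mM) ∧
    (mP.testBit v = false → mM.testBit v = true →
      ∑ k, p.co k * u k = -c ∧ Nat.land mM p.ep = mM ∧ Nat.land mP p.em = mP) ∧
    (mP.testBit v = false → mM.testBit v = false → |∑ k, p.co k * u k| < c) := by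
  cases p with
  | mk a0 a1 a2 a3 a4 a5 a6 A EP EM =>
    set D : ℤ := ∑ k, (PR.mk a0 a1 a2 a3 a4 a5 a6 A EP EM).co k * u k with hDdef
    have hD : D = ((a0 : ℤ) - 256) * ((b0 : ℤ) - 281474976710656)
        + ((a1 : ℤ) - 256) * ((b1 : ℤ) - 281474976710656)
        + ((a2 : ℤ) - 256) * ((b2 : ℤ) - 281474976710656)
        + ((a3 : ℤ) - 256) * ((b3 : ℤ) - 281474976710656)
        + ((a4 : ℤ) - 256) * ((b4 : ℤ) - 281474976710656)
        + ((a5 : ℤ) - 256) * ((b5 : ℤ) - 281474976710656)
        + ((a6 : ℤ) - 256) * ((b6 : ℤ) - 281474976710656) := by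
      rw [hDdef, hu]
      simp [PR.co, Fin.sum_univ_succ]
      ring
    change band _ _ = true at hp
    rw [band_eq, nbeq, nbeq] at hp
    have hA : A = 281474976710656 * (a0 + (a1 + (a2 + (a3 + (a4 + (a5 + a6)))))) := hp.1
    set S : ℕ := a0 * b0 + (a1 * b1 + (a2 * b2 + (a3 * b3 + (a4 * b4 + (a5 * b5 + a6 * b6)))))
      with hS
    have key : D = (504403158265495552 + S : ℤ) - (A + B : ℤ) := by
      rw [hD, hS, hA, hB]
      push_cast
      ring
    change bite (bit mP v)
      (band (Nat.beq (504403158265495552 + S) (A + B + c))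
        (band (Nat.beq (Nat.land mP EP) mP) (Nat.beq (Nat.land mM EM) mM)))
      (bite (bit mM v)
        (band (Nat.beq (504403158265495552 + S + c) (A + B))
          (band (Nat.beq (Nat.land mM EP) mM) (Nat.beq (Nat.land mP EM) mP)))
        (band (Nat.ble (504403158265495552 + S + 1) (A + B + c))
          (Nat.ble (A + B + 1) (504403158265495552 + S + c)))) = true at h
    rw [bite_eq, bite_eq, bit_eq, bit_eq] at h
    simp only [band_eq, nbeq, nble] at h
    refine ⟨fun h1 => ?_, fun h1 h2 => ?_, fun h1 h2 => ?_⟩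
    · rw [h1] at h
      simp only [true_and, false_and, or_false, Bool.true_eq_false] at h
      obtain ⟨e1, e2, e3⟩ := h
      refine ⟨?_, e2, e3⟩
      rw [key]
      have e1' : (504403158265495552 + S : ℤ) = A + B + c := by exact_mod_cast e1
      rw [e1']; ring
    · rw [h1, h2] at h
      simp only [true_and, false_and, false_or, or_false, Bool.true_eq_false,
        Bool.false_eq_true] at h
      obtain ⟨e1, e2, e3⟩ := h
      refine ⟨?_, e2, e3⟩
      rw [key]
      have e1' : (504403158265495552 + S + c : ℤ) = A + B := by exact_mod_cast e1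
      rw [← e1']; ring
    · rw [h1, h2] at h
      simp only [true_and, false_and, false_or, Bool.false_eq_true] at h
      obtain ⟨e1, e2⟩ := h
      rw [key, abs_lt]
      have e1' : (504403158265495552 + S + 1 : ℤ) ≤ A + B + c := by exact_mod_cast e1
      have e2' : (A + B + 1 : ℤ) ≤ 504403158265495552 + S + c := by exact_mod_cast e2
      constructor <;> linarith

/-- Everything that the check of a facet with mask `m` proves. -/
structure Good (T : ℕ → ℕ) (N n : ℕ) (pts : List PR) (m : ℕ) (c : ℤ) (u : Fin 7 → ℤ) : Prop where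
  cpos : 0 < c
  disj : ∀ v, v < 64 → m.testBit v = true → m.testBit (64 + v) = false
  pos : ∀ v (hv : v < pts.length), v < 64 → m.testBit v = true → ∑ k, (pts[v]).co k * u k = c ∧
    (∀ w, w < 64 → m.testBit w = true → (pts[v]).ep.testBit w = true) ∧
    (∀ w, w < 64 → m.testBit (64 + w) = true → (pts[v]).em.testBit w = true)
  neg : ∀ v (hv : v < pts.length), v < 64 → m.testBit (64 + v) = true →
    ∑ k, (pts[v]).co k * u k = -c ∧
    (∀ w, w < 64 → m.testBit (64 + w) = true → (pts[v]).ep.testBit w = true) ∧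
    (∀ w, w < 64 → m.testBit w = true → (pts[v]).em.testBit w = true)
  zero : ∀ v (hv : v < pts.length), v < 64 → m.testBit v = false → m.testBit (64 + v) = false →
    |∑ k, (pts[v]).co k * u k| < c
  supp : ∃ s : Finset ℕ, s.card = 7 ∧
    (∀ v, v < 64 → (v ∈ s ↔ (m.testBit v = true ∨ m.testBit (64 + v) = true))) ∧
    ∀ v ∈ s, v < n ∧ ∃ code, nbCheck T N m v code = true

lemma recCheck_sound {T : ℕ → ℕ} {N n : ℕ} {pts : List PR} {i r : ℕ}
    (hpts : ∀ v (hv : v < pts.length), ptOK pts[v] = true)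
    (h : recCheck T N n pts i r = true) : ∃ c u, Good T N n pts (T i) c u := by
  unfold recCheck at h
  generalize fld r (nat_lit 0) = c at h
  generalize fld r (nat_lit 56) = b0 at h
  generalize fld r (nat_lit 112) = b1 at h
  generalize fld r (nat_lit 168) = b2 at h
  generalize fld r (nat_lit 224) = b3 at h
  generalize fld r (nat_lit 280) = b4 at h
  generalize fld r (nat_lit 336) = b5 at h
  generalize fld r (nat_lit 392) = b6 at h
  generalize Nat.shiftRight r (nat_lit 448) = W at h
  unfold fcheck at h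
  rw [band_eq, band_eq, band_eq, nbeq, nble] at h
  obtain ⟨h1, h2, h3, h4⟩ := h
  generalize hm : T i = m at *
  have hlow : ∀ t, t < 64 → (Nat.land m (nat_lit 18446744073709551615)).testBit t = m.testBit t := by
    intro t ht
    rw [tb_low]; simp [ht]
  have hhigh : ∀ t, (Nat.shiftRight m (nat_lit 64)).testBit t = m.testBit (64 + t) := tb_high m
  have hall := allIdx_sound _ pts (nat_lit 0) h4
  have e0 : ∀ v, (nat_lit 0) + v = v := fun v => Nat.zero_add v
  refine ⟨c, ![(b0 : ℤ) - 281474976710656, (b1 : ℤ) - 281474976710656,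
      (b2 : ℤ) - 281474976710656, (b3 : ℤ) - 281474976710656, (b4 : ℤ) - 281474976710656,
      (b5 : ℤ) - 281474976710656, (b6 : ℤ) - 281474976710656],
      ⟨by exact_mod_cast h2, ?_, ?_, ?_, ?_, ?_⟩⟩
  · intro v hv64 hmv
    rw [← hhigh]
    apply disj_of_land h1
    rw [hlow v hv64]; exact hmv
  · intro v hvl hv64 hmv
    have h5 := hall v hvl
    rw [e0] at h5
    have := (vtest_sound (hpts v hvl) rfl rfl h5).1 (by rw [hlow v hv64]; exact hmv)
    refine ⟨this.1, fun w hw hmw => sub_of_land this.2.1 (by rw [hlow w hw]; exact hmw),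
      fun w hw hmw => sub_of_land this.2.2 (by rw [hhigh]; exact hmw)⟩
  · intro v hvl hv64 hmv
    have hlowf : (Nat.land m (nat_lit 18446744073709551615)).testBit v = false := by
      by_contra hcon
      rw [Bool.not_eq_false] at hcon
      have := disj_of_land h1 hcon
      rw [hhigh, hmv] at this
      exact Bool.noConfusion this
    have h5 := hall v hvl
    rw [e0] at h5
    have := (vtest_sound (hpts v hvl) rfl rfl h5).2.1 hlowf (by rw [hhigh]; exact hmv)
    refine ⟨this.1, fun w hw hmw => sub_of_land this.2.1 (by rw [hhigh]; exact hmw),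
      fun w hw hmw => sub_of_land this.2.2 (by rw [hlow w hw]; exact hmw)⟩
  · intro v hvl hv64 hm1 hm2
    have h5 := hall v hvl
    rw [e0] at h5
    exact (vtest_sound (hpts v hvl) rfl rfl h5).2.2 (by rw [hlow v hv64]; exact hm1)
      (by rw [hhigh]; exact hm2)
  · obtain ⟨s, hs1, hs2, hs3⟩ := nbLoop_sound 7 W _ h3
    refine ⟨s, hs1, fun v hv64 => ?_, hs3⟩
    rw [hs2, tb_lor, hlow v hv64, hhigh, Bool.or_eq_true]

end Pool.Agent.Lib.MP_b4345b_gt
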