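import Mathlib
import Pool.Agent.Lib.MP_b4345b_gt.Sound

/-!
From the checks to the triangulation.
-/

open Finset

namespace Pool.Agent.Lib.MP_b4345b_gt

lemma tab_lt (rows : List ℕ) (j : ℕ) : tab rows j < 2 ^ 128 := by
  unfold tab
  have h : ∀ a : ℕ, Nat.land a (nat_lit 340282366920938463463374607431768211455) < 2 ^ 128 := by
    intro a
    have h1 : Nat.land a (nat_lit 340282366920938463463374607431768211455)
      ≤ (nat_lit 340282366920938463463374607431768211455) := Nat.and_le_right
    exact lt_of_le_of_lt h1 (by norm_num)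
  exact h _

/-- sign of `v` in the mask `m` -/
noncomputable def sg (m v : ℕ) : ℝ :=
  if m.testBit v = true then 1 else if m.testBit (64 + v) = true then -1 else 0

lemma sg_ne_zero {m v : ℕ} : sg m v ≠ 0 ↔ (m.testBit v = true ∨ m.testBit (64 + v) = true) := by
  unfold sg
  by_cases h1 : m.testBit v = true
  · simp [h1]
  · by_cases h2 : m.testBit (64 + v) = true
    · simp [h1, h2]
    · simp [h1, h2]

lemma sg_cases {m v : ℕ} (h : sg m v ≠ 0) : sg m v = 1 ∨ sg m v = -1 := by
  unfold sg at *
  split_ifs at * <;> simp_all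

lemma sg_of_pos {m v : ℕ} (h : m.testBit v = true) : sg m v = 1 := by
  unfold sg; simp [h]

lemma sg_of_neg {m v : ℕ} (h : m.testBit v = false) (h' : m.testBit (64 + v) = true) :
    sg m v = -1 := by
  unfold sg; simp [h, h']

lemma sg_swap {q v : ℕ} (hq : q < 2 ^ 128) (hv : v < 64)
    (hd : q.testBit v = true → q.testBit (64 + v) = false) : sg (swap q) v = - sg q v := by
  have h1 : (swap q).testBit v = q.testBit (64 + v) := by
    rw [tb_swap]
    have : ¬ (v ≥ 64) := by omega
    simp [this]
  have h2 : (swap q).testBit (64 + v) = q.testBit v := by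
    rw [tb_swap]
    have h3 : q.testBit (64 + (64 + v)) = false := by
      apply Nat.testBit_lt_two_pow
      calc q < 2 ^ 128 := hq
        _ ≤ 2 ^ (64 + (64 + v)) := Nat.pow_le_pow_right (by norm_num) (by omega)
    have h4 : 64 + v - 64 = v := by omega
    rw [h3, h4]
    simp [hv]
  unfold sg
  rw [h1, h2]
  by_cases h5 : q.testBit v = true
  · simp [h5, hd h5]
  · by_cases h6 : q.testBit (64 + v) = true
    · simp [h5, h6]
    · simp [h5, h6]

/-- linear functional given by a coefficient vector -/
noncomputable def lfun (w : Fin 7 → ℝ) : EuclideanSpace ℝ (Fin 7) →ₗ[ℝ] ℝ where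
  toFun y := ∑ k, w k * y k
  map_add' a b := by
    simp [mul_add, Finset.sum_add_distrib]
  map_smul' r a := by
    simp only [PiLp.smul_apply, smul_eq_mul, RingHom.id_apply, Finset.mul_sum]
    exact Finset.sum_congr rfl fun k _ => by ring

lemma lfun_apply (w : Fin 7 → ℝ) (y : EuclideanSpace ℝ (Fin 7)) : lfun w y = ∑ k, w k * y k := rfl

section

variable {T : ℕ → ℕ} {N n : ℕ} {pts : List PR}

/-- the certificate -/
noncomputable def mkCert (hT : ∀ j, T j < 2 ^ 128) (hlen : pts.length = n) (hn : n ≤ 64)
    (hpts : ∀ v (hv : v < pts.length), ptOK pts[v] = true)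
    (c : Fin N → ℤ) (u : Fin N → Fin 7 → ℤ) (hg : ∀ j : Fin N, Good T N n pts (T j) (c j) (u j)) :
    Cert (Fin n) (Fin N × Bool) (EuclideanSpace ℝ (Fin 7)) where
  p v := WithLp.toLp 2 (fun k => ((pts[(v : ℕ)]'(by rw [hlen]; exact v.2)).co k : ℝ))
  σ j v := if j.2 then - sg (T j.1) v else sg (T j.1) v
  u j := if j.2 then - lfun (fun k => (u j.1 k : ℝ) / (c j.1 : ℝ))
    else lfun (fun k => (u j.1 k : ℝ) / (c j.1 : ℝ))
  h01 := by
    rintro ⟨j, τ⟩ v h
    cases τ
    · simp only [Bool.false_eq_true, if_false] at h ⊢
      exact sg_cases h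
    · simp only [if_true, neg_ne_zero] at h ⊢
      rcases sg_cases h with h1 | h1 <;> simp [h1]
  H1 := by
    have key : ∀ (j : Fin N) (v : Fin n), sg (T j) v ≠ 0 →
        lfun (fun k => (u j k : ℝ) / (c j : ℝ))
          (WithLp.toLp 2 (fun k => ((pts[(v : ℕ)]'(by rw [hlen]; exact v.2)).co k : ℝ)))
          = sg (T j) v := by
      intro j v h
      have hc : (c j : ℝ) ≠ 0 := by exact_mod_cast (hg j).cpos.ne'
      have hsum : lfun (fun k => (u j k : ℝ) / (c j : ℝ))
          (WithLp.toLp 2 (fun k => ((pts[(v : ℕ)]'(by rw [hlen]; exact v.2)).co k : ℝ)))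
          = ((∑ k, (pts[(v : ℕ)]'(by rw [hlen]; exact v.2)).co k * u j k : ℤ) : ℝ) / c j := by
        rw [lfun_apply]
        push_cast
        rw [Finset.sum_div]
        exact Finset.sum_congr rfl fun k _ => by ring
      rw [hsum]
      have hv64 : (v : ℕ) < 64 := lt_of_lt_of_le v.2 hn
      by_cases h1 : (T j).testBit v = true
      · rw [((hg j).pos v (by rw [hlen]; exact v.2) hv64 h1).1, sg_of_pos h1, div_self hc]
      · have h2 : (T j).testBit (64 + v) = true := (sg_ne_zero.1 h).resolve_left h1
        rw [((hg j).neg v (by rw [hlen]; exact v.2) hv64 h2).1,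
          sg_of_neg (by simpa using h1) h2]
        push_cast
        rw [neg_div, div_self hc]
    rintro ⟨j, τ⟩ v h
    cases τ
    · simp only [Bool.false_eq_true, if_false] at h ⊢
      exact key j v h
    · simp only [if_true, neg_ne_zero] at h ⊢
      rw [LinearMap.neg_apply, key j v h]
  H2 := by
    have key : ∀ (j : Fin N) (v : Fin n), sg (T j) v = 0 →
        |lfun (fun k => (u j k : ℝ) / (c j : ℝ))
          (WithLp.toLp 2 (fun k => ((pts[(v : ℕ)]'(by rw [hlen]; exact v.2)).co k : ℝ)))| < 1 := by
      intro j v h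
      have hc : 0 < (c j : ℝ) := by exact_mod_cast (hg j).cpos
      have hsum : lfun (fun k => (u j k : ℝ) / (c j : ℝ))
          (WithLp.toLp 2 (fun k => ((pts[(v : ℕ)]'(by rw [hlen]; exact v.2)).co k : ℝ)))
          = ((∑ k, (pts[(v : ℕ)]'(by rw [hlen]; exact v.2)).co k * u j k : ℤ) : ℝ) / c j := by
        rw [lfun_apply]
        push_cast
        rw [Finset.sum_div]
        exact Finset.sum_congr rfl fun k _ => by ring
      rw [hsum, abs_div, abs_of_pos hc, div_lt_one hc]
      have hv64 : (v : ℕ) < 64 := lt_of_lt_of_le v.2 hn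
      have h' : ¬ ((T j).testBit v = true ∨ (T j).testBit (64 + v) = true) := by
        rw [← sg_ne_zero]; simpa using h
      push Not at h'
      have := (hg j).zero v (by rw [hlen]; exact v.2) hv64 (by simpa using h'.1)
        (by simpa using h'.2)
      exact_mod_cast this
    rintro ⟨j, τ⟩ v h
    cases τ
    · simp only [Bool.false_eq_true, if_false] at h ⊢
      exact key j v h
    · simp only [if_true, neg_eq_zero] at h ⊢
      rw [LinearMap.neg_apply, abs_neg]
      exact key j v h
  neg := by
    rintro ⟨j, τ⟩
    refine ⟨(j, !τ), fun v => ?_⟩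
    cases τ <;> simp
  H3 := by
    have key : ∀ (j : Fin N) (v : Fin n), sg (T j) v ≠ 0 → ∃ (k : Fin N) (τ : Bool),
        (∀ w : Fin n, w ≠ v → sg (T j) w ≠ 0 →
          (if τ then - sg (T k) w else sg (T k) w) = sg (T j) w) ∧
        (if τ then - sg (T k) v else sg (T k) v) ≠ sg (T j) v := by
      intro j v h
      have hv64 : ∀ v : Fin n, (v : ℕ) < 64 := fun v => lt_of_lt_of_le v.2 hn
      obtain ⟨s, _, hs2, hs3⟩ := (hg j).supp
      obtain ⟨_, code, hcode⟩ := hs3 v ((hs2 v (hv64 v)).2 (sg_ne_zero.1 h))
      obtain ⟨hk, hA, hB⟩ := nbCheck_sound hcode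
      -- sign of the neighbour
      have hdisj : ∀ w : Fin n, (T (code / 2)).testBit w = true →
          (T (code / 2)).testBit (64 + w) = false := fun w =>
        (hg ⟨code / 2, hk⟩).disj w (hv64 w)
      have hsq : ∀ w : Fin n, sg (sq T code) w =
          (if (decide (code % 2 ≠ 0)) then - sg (T (code / 2)) w else sg (T (code / 2)) w) := by
        intro w
        unfold sq
        by_cases hc : code % 2 = 0
        · simp [hc]
        · rw [if_neg hc, sg_swap (hT _) (hv64 w) (hdisj w)]
          simp [hc]
      refine ⟨⟨code / 2, hk⟩, decide (code % 2 ≠ 0), fun w hwv hw => ?_, ?_⟩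
      · change (if (decide (code % 2 ≠ 0)) then - sg (T (code / 2)) w else sg (T (code / 2)) w) = _
        rw [← hsq w]
        have hwv' : (w : ℕ) ≠ v := fun h => hwv (Fin.ext h)
        have n1 : (w : ℕ) ≠ 64 + v := by have := hv64 w; omega
        have n2 : 64 + (w : ℕ) ≠ v := by have := hv64 v; omega
        have n3 : 64 + (w : ℕ) ≠ 64 + v := by omega
        by_cases h1 : (T j).testBit w = true
        · rw [sg_of_pos h1, sg_of_pos (hA w h1 hwv' n1)]
        · have h2 : (T j).testBit (64 + w) = true := (sg_ne_zero.1 hw).resolve_left h1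
          have h3 := hA (64 + w) h2 n2 n3
          rw [sg_of_neg (by simpa using h1) h2]
          -- the other bit vanishes
          have hne : sg (sq T code) w ≠ 0 := sg_ne_zero.2 (Or.inr h3)
          rcases sg_cases hne with h4 | h4
          · exfalso
            -- both bits set: contradiction with disjointness
            have h5 : (sq T code).testBit w = true := by
              by_contra h6
              rw [sg_of_neg (by simpa using h6) h3] at h4
              norm_num at h4
            unfold sq at h3 h5
            by_cases hc : code % 2 = 0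
            · rw [if_pos hc] at h3 h5
              rw [hdisj w h5] at h3
              exact Bool.noConfusion h3
            · rw [if_neg hc] at h3 h5
              rw [tb_swap] at h3 h5
              have hw64 := hv64 w
              have e1 : ¬ ((w : ℕ) ≥ 64) := by omega
              have e2 : (T (code / 2)).testBit (64 + (64 + w)) = false := by
                apply Nat.testBit_lt_two_pow
                calc T (code / 2) < 2 ^ 128 := hT _
                  _ ≤ 2 ^ (64 + (64 + (w : ℕ))) := Nat.pow_le_pow_right (by norm_num) (by omega)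
              have e3 : 64 + (w : ℕ) - 64 = w := by omega
              rw [e2, e3] at h3
              simp [e1] at h5
              simp at h3
              have := hdisj w h3.2
              rw [this] at h5
              exact Bool.noConfusion h5
          · exact h4
      · change (if (decide (code % 2 ≠ 0)) then - sg (T (code / 2)) v else sg (T (code / 2)) v) ≠ _
        rw [← hsq v]
        by_cases h1 : (T j).testBit v = true
        · have h2 := hB v h1 (Or.inl rfl)
          rw [sg_of_pos h1]
          unfold sg
          rw [h2]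
          simp only [Bool.false_eq_true, if_false]
          split_ifs <;> norm_num
        · have h2 : (T j).testBit (64 + v) = true := (sg_ne_zero.1 h).resolve_left h1
          have h3 := hB (64 + v) h2 (Or.inr rfl)
          rw [sg_of_neg (by simpa using h1) h2]
          unfold sg
          rw [h3]
          simp only [Bool.false_eq_true, if_false]
          split_ifs <;> norm_num
    rintro ⟨j, τ⟩ v h
    cases τ
    · simp only [Bool.false_eq_true, if_false] at h ⊢
      obtain ⟨k, τ', h1, h2⟩ := key j v h
      exact ⟨(k, τ'), h1, h2⟩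
    · simp only [if_true, neg_ne_zero] at h ⊢
      obtain ⟨k, τ', h1, h2⟩ := key j v h
      refine ⟨(k, !τ'), fun w hw hw0 => ?_, ?_⟩
      · have := h1 w hw hw0
        cases τ'
        · simp only [Bool.false_eq_true, if_false] at this
          simp [this]
        · simp only [if_true] at this
          simp [← this]
      · cases τ'
        · simp only [Bool.false_eq_true, if_false] at h2
          simpa using h2
        · simp only [if_true] at h2
          simp only [Bool.not_true, Bool.false_eq_true, if_false]
          intro h3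
          exact h2 (by rw [h3, neg_neg])
  H4 := by
    rintro ⟨j, τ⟩
    have hv64 : ∀ v : Fin n, (v : ℕ) < 64 := fun v => lt_of_lt_of_le v.2 hn
    obtain ⟨s, hs1, hs2, hs3⟩ := (hg j).supp
    have e : Fintype.card {v : Fin n // (if τ then - sg (T j) v else sg (T j) v) ≠ 0}
        = Fintype.card {v : ℕ // v ∈ s} := by
      refine Fintype.card_congr
        { toFun := fun v => ⟨(v : Fin n), ?_⟩
          invFun := fun v => ⟨⟨(v : ℕ), (hs3 v v.2).1⟩, ?_⟩
          left_inv := ?_
          right_inv := ?_ }
      · rw [hs2 _ (hv64 _), ← sg_ne_zero]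
        have := v.2
        cases τ <;> simpa using this
      · have := (hs2 v (lt_of_lt_of_le (hs3 v v.2).1 hn)).1 v.2
        rw [← sg_ne_zero] at this
        cases τ <;> simpa using this
      · intro v; rfl
      · intro v; rfl
    rw [finrank_euclideanSpace_fin]
    have e2 : Fintype.card {v : ℕ // v ∈ s} = 7 := by rw [Fintype.card_coe, hs1]
    rw [← e2, ← e]
  H5 := by
    have key : ∀ (i j : Fin N) (v w : Fin n), sg (T i) v ≠ 0 → sg (T i) w ≠ 0 → sg (T j) v ≠ 0 →
        sg (T j) w ≠ 0 → sg (T i) v * sg (T i) w = sg (T j) v * sg (T j) w := by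
      intro i j v w
      have hv64 : ∀ v : Fin n, (v : ℕ) < 64 := fun v => lt_of_lt_of_le v.2 hn
      -- each facet: product 1 implies w ∈ EP v, product -1 implies w ∈ EM v
      have hfac : ∀ i : Fin N, sg (T i) v ≠ 0 → sg (T i) w ≠ 0 →
          (sg (T i) v * sg (T i) w = 1 ∧
            ((pts[(v : ℕ)]'(by rw [hlen]; exact v.2)).ep.testBit w = true)) ∨
          (sg (T i) v * sg (T i) w = -1 ∧
            ((pts[(v : ℕ)]'(by rw [hlen]; exact v.2)).em.testBit w = true)) := by
        intro i hv hw
        by_cases h1 : (T i).testBit v = true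
        · obtain ⟨_, a1, a2⟩ := (hg i).pos v (by rw [hlen]; exact v.2) (hv64 v) h1
          by_cases h2 : (T i).testBit w = true
          · left; exact ⟨by rw [sg_of_pos h1, sg_of_pos h2]; norm_num, a1 w (hv64 w) h2⟩
          · have h3 := (sg_ne_zero.1 hw).resolve_left h2
            right
            exact ⟨by rw [sg_of_pos h1, sg_of_neg (by simpa using h2) h3]; norm_num,
              a2 w (hv64 w) h3⟩
        · have h1' := (sg_ne_zero.1 hv).resolve_left h1
          obtain ⟨_, a1, a2⟩ := (hg i).neg v (by rw [hlen]; exact v.2) (hv64 v) h1'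
          by_cases h2 : (T i).testBit w = true
          · right
            exact ⟨by rw [sg_of_neg (by simpa using h1) h1', sg_of_pos h2]; norm_num,
              a2 w (hv64 w) h2⟩
          · have h3 := (sg_ne_zero.1 hw).resolve_left h2
            left
            exact ⟨by rw [sg_of_neg (by simpa using h1) h1', sg_of_neg (by simpa using h2) h3]; norm_num,
              a1 w (hv64 w) h3⟩
      intro h1 h2 h3 h4
      have hd := ptOK_sound (hpts v (by rw [hlen]; exact v.2))
      rcases hfac i h1 h2 with ⟨p1, q1⟩ | ⟨p1, q1⟩ <;> rcases hfac j h3 h4 with ⟨p2, q2⟩ | ⟨p2, q2⟩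
      · rw [p1, p2]
      · exfalso
        have := disj_of_land hd q1
        rw [q2] at this
        exact Bool.noConfusion this
      · exfalso
        have := disj_of_land hd q2
        rw [q1] at this
        exact Bool.noConfusion this
      · rw [p1, p2]
    rintro ⟨i, τ⟩ ⟨j, τ'⟩ v w h1 h2 h3 h4
    have g1 : sg (T i) v ≠ 0 := by cases τ <;> simpa using h1
    have g2 : sg (T i) w ≠ 0 := by cases τ <;> simpa using h2
    have g3 : sg (T j) v ≠ 0 := by cases τ' <;> simpa using h3
    have g4 : sg (T j) w ≠ 0 := by cases τ' <;> simpa using h4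
    have := key i j v w g1 g2 g3 g4
    cases τ <;> cases τ' <;> simpa using this

end

/-- Soundness of the whole certificate. -/
theorem exists_triangulation (rows : List ℕ) (N n : ℕ) (pts : List PR)
    (hlen : pts.length = n) (hn : n ≤ 64) (hN : 0 < N)
    (hpts : ∀ v (hv : v < pts.length), ptOK pts[v] = true)
    (hrec : ∀ i, i < N → ∃ r, recCheck (tab rows) N n pts i r = true)
    (hcov : ∀ v, v < n → ∃ j, j < N ∧
      ((tab rows j).testBit v = true ∨ (tab rows j).testBit (64 + v) = true))
    (s : Setoid (Metric.sphere (0 : EuclideanSpace ℝ (Fin 7)) 1))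
    (hs : ∀ x y : Metric.sphere (0 : EuclideanSpace ℝ (Fin 7)) 1, s x y ↔ (y = x ∨ y = -x)) :
    ∃ K : Geometry.SimplicialComplex ℝ (Fin n → ℝ), K.faces.Finite ∧
      K.vertices.ncard = n ∧ Nonempty (K.space ≃ₜ Quotient s) := by
  have h1 : ∀ j : Fin N, ∃ c u, Good (tab rows) N n pts (tab rows j) c u := by
    intro j
    obtain ⟨r, hr⟩ := hrec j j.2
    exact recCheck_sound hpts hr
  choose c u hg using h1
  have : Nonempty (Fin N × Bool) := ⟨(⟨0, hN⟩, true)⟩
  have key := (mkCert (tab_lt rows) hlen hn hpts c u hg).exists_complex ?_ s hs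
  · simpa using key
  · intro v
    obtain ⟨j, hj, hjv⟩ := hcov v v.2
    refine ⟨(⟨j, hj⟩, false), ?_⟩
    change (if false = true then - sg (tab rows j) v else sg (tab rows j) v) ≠ 0
    simpa using sg_ne_zero.2 hjv

lemma chunk_step {rows : List ℕ} {N n : ℕ} {pts : List PR} {l : List ℕ} {i0 k : ℕ}
    (h0 : ∀ i, i < i0 → ∃ r, recCheck (tab rows) N n pts i r = true)
    (h : chunkCheck rows N n pts l i0 = true) (hl : l.length = k) :
    ∀ i, i < i0 + k → ∃ r, recCheck (tab rows) N n pts i r = true := by
  intro i hi
  rcases lt_or_ge i i0 with h1 | h1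
  · exact h0 i h1
  · have h2 := allIdx_sound _ l i0 h (i - i0) (by omega)
    have h3 : i0 + (i - i0) = i := by omega
    rw [h3] at h2
    exact ⟨_, h2⟩

lemma pts_sound {pts : List PR} (h : allIdx (fun _ p => ptOK p) pts 0 = true) :
    ∀ v (hv : v < pts.length), ptOK pts[v] = true := fun v hv =>
  allIdx_sound _ pts 0 h v hv

lemma cov_sound {rows l : List ℕ} {N n : ℕ} (h : covCheck (tab rows) N l = true)
    (hl : l.length = n) : ∀ v, v < n → ∃ j, j < N ∧
      ((tab rows j).testBit v = true ∨ (tab rows j).testBit (64 + v) = true) := by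
  intro v hv
  have h2 := allIdx_sound _ l (nat_lit 0) h v (by rw [hl]; exact hv)
  have e0 : (nat_lit 0) + v = v := Nat.zero_add v
  rw [e0, band_eq, nble, bite_eq, bit_eq, bit_eq] at h2
  refine ⟨_, h2.1, ?_⟩
  rcases h2.2 with h3 | h3
  · exact Or.inl h3.1
  · exact Or.inr h3.2

end Pool.Agent.Lib.MP_b4345b_gt
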